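import Mathlib

/-!
# Five inequalities over `ℚ(η)` cutting out the vertices of the 5-simplex
-/

set_option autoImplicit false

namespace Q151.Rel

lemma irr_zero {η : ℝ} (hη : Irrational η) {d e : ℤ} (h : (d : ℝ) / 100 + η * e = 0) :
    d = 0 ∧ e = 0 := by
  have he : e = 0 := by
    by_contra he
    apply hη
    have he' : (e : ℝ) ≠ 0 := by exact_mod_cast he
    refine ⟨-(d : ℚ) / (100 * e), ?_⟩
    push_cast
    field_simp
    linarith
  subst he
  refine ⟨?_, rfl⟩
  have : (d : ℝ) = 0 := by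
    simp at h
    exact_mod_cast h
  exact_mod_cast this

set_option maxHeartbeats 1000000 in
/-- The core statement: integer solutions of the five inequalities. -/
theorem core {η : ℝ} (hη : Irrational η) (h0 : 0 < η) (h1 : η < 1 / 100) (a b c d e : ℤ)
    (I1 : 0 ≤ (c : ℝ) + (1 + 1 / 100) * d + (1 + η) * e)
    (I2 : -1 + 2 * ((c : ℝ) + d + e) + (η - 1 / 100) * (1 - 2 * a - b - c - 2 * d) / 2
      + (1 / 100 + η) * (b + d + e) / 2 ≤ (c : ℝ) + (1 + 1 / 100) * d + (1 + η) * e)
    (I3 : 2 * ((c : ℝ) + (1 + 1 / 100) * d + (1 + η) * e) ≤ a + 2 * b + 2 * c + 4 * d + 3 * e)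
    (I4 : 2 * ((c : ℝ) + (1 + 1 / 100) * d + (1 + η) * e) ≤
      (1 + 1 / 100) * (2 - 2 * a - b + c + 2 * e))
    (I5 : 2 * ((c : ℝ) + (1 + 1 / 100) * d + (1 + η) * e) ≤
      (1 + η) * (1 + a - b + 3 * c + 2 * d + e)) :
    (a = 0 ∧ b = 0 ∧ c = 0 ∧ d = 0 ∧ e = 0) ∨ (a = 1 ∧ b = 0 ∧ c = 0 ∧ d = 0 ∧ e = 0) ∨
    (a = 0 ∧ b = 1 ∧ c = 0 ∧ d = 0 ∧ e = 0) ∨ (a = 0 ∧ b = 0 ∧ c = 1 ∧ d = 0 ∧ e = 0) ∨
    (a = 0 ∧ b = 0 ∧ c = 0 ∧ d = 1 ∧ e = 0) ∨ (a = 0 ∧ b = 0 ∧ c = 0 ∧ d = 0 ∧ e = 1) := by
  -- the three slacks of the lower cone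
  have w1 : 0 ≤ a + 2 * b + 2 * c + 4 * d + 3 * e := by
    have : (0 : ℝ) ≤ a + 2 * b + 2 * c + 4 * d + 3 * e := by linarith
    exact_mod_cast this
  have w2 : 0 ≤ 2 - 2 * a - b + c + 2 * e := by
    have : (0 : ℝ) ≤ 2 - 2 * a - b + c + 2 * e := by linarith
    exact_mod_cast this
  have w3 : 0 ≤ 1 + a - b + 3 * c + 2 * d + e := by
    have h2 : (0 : ℝ) ≤ (1 + η) * (1 + a - b + 3 * c + 2 * d + e) := by linarith
    have : (0 : ℝ) ≤ 1 + a - b + 3 * c + 2 * d + e :=
      nonneg_of_mul_nonneg_right h2 (by linarith)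
    exact_mod_cast this
  have w1' : (0 : ℝ) ≤ a + 2 * b + 2 * c + 4 * d + 3 * e := by exact_mod_cast w1
  have w2' : (0 : ℝ) ≤ 2 - 2 * a - b + c + 2 * e := by exact_mod_cast w2
  have w3' : (0 : ℝ) ≤ 1 + a - b + 3 * c + 2 * d + e := by exact_mod_cast w3
  have hN0 : 0 ≤ c + d + e := by omega
  -- upper bound for the level
  have hN1 : c + d + e ≤ 1 := by
    by_contra hcon
    push Not at hcon
    have hN : (2 : ℝ) ≤ (c : ℝ) + d + e := by exact_mod_cast hcon
    have p1 := mul_nonneg h0.le w1'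
    have p2 := mul_nonneg h0.le w2'
    have p3 := mul_nonneg h0.le w3'
    have q1 := mul_nonneg (sub_nonneg.2 h1.le) w1'
    have q2 := mul_nonneg (sub_nonneg.2 h1.le) w2'
    have q3 := mul_nonneg (sub_nonneg.2 h1.le) w3'
    nlinarith
  -- the position of the projection
  have hirr : ∀ d' e' : ℤ, (d' : ℝ) / 100 + η * e' = 0 → d' = 0 ∧ e' = 0 :=
    fun d' e' h => irr_zero hη h
  rcases (by omega : c + d + e = 0 ∨ c + d + e = 1) with hN | hN
  · have hNr : (c : ℝ) + d + e = 0 := by exact_mod_cast hN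
    have hp : (a + b + d = 0 ∧ a + c + d = 0) ∨ (a + b + d = 1 ∧ a + c + d = 1) ∨
        (a + b + d = 1 ∧ a + c + d = 0) := by omega
    have hcr : (c : ℝ) = - d - e := by linarith
    have key : (d : ℝ) / 100 + η * e = 0 → d = 0 ∧ e = 0 := hirr d e
    rcases hp with ⟨k1, k2⟩ | ⟨k1, k2⟩ | ⟨k1, k2⟩
    · have ha : (a : ℝ) = - b - d := by
        have : (a : ℝ) + b + d = 0 := by exact_mod_cast k1
        linarith
      have hb : (b : ℝ) = - d - e := by
        have : (a : ℝ) + c + d = 0 := by exact_mod_cast k2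
        rw [ha, hcr] at this
        linarith
      have : (d : ℝ) / 100 + η * e = 0 := by
        rw [ha, hb, hcr] at I3
        rw [hcr] at I1
        linarith
      have := key this
      omega
    · have ha : (a : ℝ) = 1 - b - d := by
        have : (a : ℝ) + b + d = 1 := by exact_mod_cast k1
        linarith
      have hb : (b : ℝ) = - d - e := by
        have : (a : ℝ) + c + d = 1 := by exact_mod_cast k2
        rw [ha, hcr] at this
        linarith
      have : (d : ℝ) / 100 + η * e = 0 := by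
        rw [ha, hb, hcr] at I4
        rw [hcr] at I1
        linarith
      have := key this
      omega
    · have ha : (a : ℝ) = 1 - b - d := by
        have : (a : ℝ) + b + d = 1 := by exact_mod_cast k1
        linarith
      have hb : (b : ℝ) = 1 - d - e := by
        have : (a : ℝ) + c + d = 0 := by exact_mod_cast k2
        rw [ha, hcr] at this
        linarith
      have : (d : ℝ) / 100 + η * e = 0 := by
        have e5 : (1 + η) * (1 + (a : ℝ) - b + 3 * c + 2 * d + e) = 0 := by
          rw [ha, hb, hcr]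
          ring
        rw [e5, hcr] at I5
        rw [hcr] at I1
        linarith
      have := key this
      omega
  · have hNr : (c : ℝ) + d + e = 1 := by exact_mod_cast hN
    have hcr : (c : ℝ) = 1 - d - e := by linarith
    -- bounds for the coordinates of the projection
    have b1 : -10 ≤ 1 - 2 * a - b - c - 2 * d ∧ 1 - 2 * a - b - c - 2 * d ≤ 10 := by omega
    have b2 : -10 ≤ b + d + e ∧ b + d + e ≤ 10 := by omega
    have b1' : (-10 : ℝ) ≤ 1 - 2 * a - b - c - 2 * d ∧ (1 : ℝ) - 2 * a - b - c - 2 * d ≤ 10 := by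
      exact_mod_cast b1
    have b2' : (-10 : ℝ) ≤ b + d + e ∧ (b : ℝ) + d + e ≤ 10 := by exact_mod_cast b2
    have hH : (8 / 10 : ℝ) ≤ -1 + 2 * ((c : ℝ) + d + e)
        + (η - 1 / 100) * (1 - 2 * a - b - c - 2 * d) / 2 + (1 / 100 + η) * (b + d + e) / 2 := by
      have e1 : (1 / 100 - η) * (1 - 2 * (a : ℝ) - b - c - 2 * d) ≤ (1 / 100 - η) * 10 := by
        apply mul_le_mul_of_nonneg_left b1'.2
        linarith
      have e2 : (1 / 100 + η) * (-10) ≤ (1 / 100 + η) * ((b : ℝ) + d + e) := by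
        apply mul_le_mul_of_nonneg_left b2'.1
        linarith
      rw [hNr]
      linarith
    have v1 : 2 ≤ a + 2 * b + 2 * c + 4 * d + 3 * e := by
      have : (1 : ℝ) < a + 2 * b + 2 * c + 4 * d + 3 * e := by linarith
      have : 1 < a + 2 * b + 2 * c + 4 * d + 3 * e := by exact_mod_cast this
      omega
    have v2 : 2 ≤ 2 - 2 * a - b + c + 2 * e := by
      have : (1 : ℝ) < 2 - 2 * a - b + c + 2 * e := by linarith
      have : 1 < 2 - 2 * a - b + c + 2 * e := by exact_mod_cast this
      omega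
    have v3 : 2 ≤ 1 + a - b + 3 * c + 2 * d + e := by
      have : (1 : ℝ) < 1 + a - b + 3 * c + 2 * d + e := by
        by_contra hcon
        push Not at hcon
        have h2 : (8 / 5 : ℝ) ≤ (1 + η) * (1 + a - b + 3 * c + 2 * d + e) := by linarith
        have h3 : (1 + η) * (1 + a - b + 3 * c + 2 * d + (e : ℝ)) ≤ (1 + η) * 1 := by
          gcongr
        linarith
      have : 1 < 1 + a - b + 3 * c + 2 * d + e := by exact_mod_cast this
      omega
    have hp : (a + b + d = 0 ∧ a + c + d = 1) ∨ (a + b + d = 1 ∧ a + c + d = 1) ∨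
        (a + b + d = 0 ∧ a + c + d = 0) := by omega
    rcases hp with ⟨k1, k2⟩ | ⟨k1, k2⟩ | ⟨k1, k2⟩
    · have ha : (a : ℝ) = - b - d := by
        have : (a : ℝ) + b + d = 0 := by exact_mod_cast k1
        linarith
      have hb : (b : ℝ) = - d - e := by
        have : (a : ℝ) + c + d = 1 := by exact_mod_cast k2
        rw [ha, hcr] at this
        linarith
      have : (d : ℝ) / 100 + η * e = 0 := by
        rw [ha, hb, hcr] at I3 I2
        linarith
      have := hirr d e this
      omega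
    · have ha : (a : ℝ) = 1 - b - d := by
        have : (a : ℝ) + b + d = 1 := by exact_mod_cast k1
        linarith
      have hb : (b : ℝ) = 1 - d - e := by
        have : (a : ℝ) + c + d = 1 := by exact_mod_cast k2
        rw [ha, hcr] at this
        linarith
      have : ((d - 1 : ℤ) : ℝ) / 100 + η * e = 0 := by
        push_cast
        rw [ha, hb, hcr] at I4 I2
        linarith
      have := hirr (d - 1) e this
      omega
    · have ha : (a : ℝ) = - b - d := by
        have : (a : ℝ) + b + d = 0 := by exact_mod_cast k1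
        linarith
      have hb : (b : ℝ) = 1 - d - e := by
        have : (a : ℝ) + c + d = 0 := by exact_mod_cast k2
        rw [ha, hcr] at this
        linarith
      have : (d : ℝ) / 100 + η * ((e - 1 : ℤ) : ℝ) = 0 := by
        have e5 : (1 + η) * (1 + (a : ℝ) - b + 3 * c + 2 * d + e) = 2 * (1 + η) := by
          rw [ha, hb, hcr]
          ring
        rw [e5, hcr] at I5
        rw [ha, hb, hcr] at I2
        push_cast
        linarith
      have := hirr d (e - 1) this
      omega

end Q151.Rel
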